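import Pool.Agent.H43.Mno1

namespace Pool.Agent.Results.MP_b39627_an.Yes

open Set

/-- `f` is non-decreasing in each variable on the closed nonnegative orthant. -/
def IncEach {m : ℕ} (f : (Fin m → ℝ) → ℝ) : Prop :=
  ∀ x, 0 ≤ x → ∀ i t, x i ≤ t → f x ≤ f (Function.update x i t)

open Pool.Agent.H43.Mno in
theorem result (m : ℕ) (hm : 1 ≤ m) (u : (Fin m → ℝ) → ℝ) (hu0 : ∀ x, 0 ≤ x → 0 ≤ u x)
    (hu : IncEach u) (C : ℝ) :
    ∃ w : (Fin m → ℝ) → ℝ, ContinuousOn w (Ici 0) ∧ IncEach w ∧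
      (∀ x, 0 ≤ x → 0 ≤ w x ∧ w x ≤ u x) ∧
      ∀ x, 0 ≤ x → w x ≠ u x → ∀ D : (Fin m → ℝ) →L[ℝ] ℝ, HasFDerivWithinAt w D (Ici 0) x →
        C ≤ ∏ i, D (Pi.single i 1) := by
  haveI : Nonempty (Fin m) := ⟨⟨0, hm⟩⟩
  have S : Sup C u u := ⟨hu0, fun y x v hy hyx hv _ => hv.trans (mono_of_update hu hy hyx)⟩
  exact ⟨W C u, W_cont S, fun x hx i t ht => W_mono S hx (le_update_self_iff.2 ht),
    fun x hx => ⟨(W_sup S).1 x hx, W_le S hx⟩,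
    fun x hx hne D hD => W_deriv S hx hD ((W_le S hx).lt_of_ne hne)⟩

end Pool.Agent.Results.MP_b39627_an.Yes
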